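import Mathlib
import Pool.Agent.Lib.MP_5ad645_nt.H89.Bounds

/-!
# The number of solutions of the perfect cuboid system of the third type

`IsSol n b e f g h k l` is the system of the problem. The number of solution tuples with `n ≤ X`
is at most `C X^(1/2 + ε)`, and if the system has a solution at all, then at least `c √X` odd
numbers `n ≤ X` admit one.
-/

set_option autoImplicit false

namespace Pool.Agent.Results.MP_5ad645_nt.SolutionCount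

/-- The system of the problem. -/
def IsSol (n b e f g h k l : ℕ) : Prop :=
  Odd n ∧ 1 < b ∧ 1 < e ∧ 1 < f ∧ 1 < g ∧ 1 < h ∧ 1 < k ∧ 1 < l ∧
    n = e ^ 2 - f ^ 2 ∧ n = b * (g ^ 2 - h ^ 2) ∧ n = k ^ 2 - l ^ 2 ∧
    e ^ 2 * f ^ 2 = b ^ 2 * g ^ 2 * h ^ 2 + k ^ 2 * l ^ 2

/-- The solution tuples `(n, b, e, f, g, h, k, l)` with `n ≤ X`. -/
def Sols (X : ℕ) : Set (Fin 8 → ℕ) :=
  {s | s 0 ≤ X ∧ IsSol (s 0) (s 1) (s 2) (s 3) (s 4) (s 5) (s 6) (s 7)}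

/-- The solvable `n ≤ X`. -/
def Nset (X : ℕ) : Set ℕ :=
  {n | n ≤ X ∧ ∃ b e f g h k l : ℕ, IsSol n b e f g h k l}

theorem result :
    (∀ ε : ℝ, 0 < ε → ∃ C : ℝ, 0 < C ∧ ∀ X : ℕ, 1 ≤ X →
      (Sols X).Finite ∧ ((Sols X).ncard : ℝ) ≤ C * (X : ℝ) ^ (1 / 2 + ε)) ∧
    ((∃ n b e f g h k l : ℕ, IsSol n b e f g h k l) →
      ∃ c : ℝ, 0 < c ∧ ∃ X0 : ℕ, ∀ X : ℕ, X0 ≤ X →
        c * Real.sqrt X ≤ ((Nset X).ncard : ℝ)) :=
  ⟨fun _ hε => Pool.Agent.Lib.MP_5ad645_nt.H89.upper hε,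
    fun h => Pool.Agent.Lib.MP_5ad645_nt.H89.lower h⟩

end Pool.Agent.Results.MP_5ad645_nt.SolutionCount
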